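import Pool.Agent.X244.OT.B

/-!
# Every one-troughed travelling wave of the piecewise-linear beam equation is even

For `c² < 2` and every `ξ < 1` (in particular for `c² ∈ (0, 2)` and `ξ ∈ [0, c⁴/4)`) every solution
`z ∈ C⁴` of `z'''' + c² z'' + (z+1)⁺ - ξ (z+1)⁻ - 1 = 0` on the real line with `z, z' → 0` at
`± ∞`, for which there are exactly two points `t` with `z t = -1`, is even about the midpoint of
these two points.

Proof.  Let `t₁ < t₂` be the two points, `r(t) = z(t₁ + t₂ - t)`, `O = z - r`, `E = z + r` and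
`s = √(2 - c²)`.  On `[t₂, ∞)` both `z` and `r` are decaying solutions of
`(D² - sD + 1)(D² + sD + 1) z = 0`, so their jets at `t₂` satisfy `z'' = -s z' - z` and
`z''' = -s z'' - z'`.  On `[t₁, t₂]` the function
`O'''E''' + c² O''E'' + ξ (O E'' - O'E' + O''E) - 2 (1 - ξ) O''` is constant, and it vanishes at the
midpoint by parity.  Its value at `t₂` is `(1 - ξ) O'(t₂) E'(t₂)`.  Since `z'(t₂) ≥ 0` and
`r'(t₂) ≥ 0`, this gives `O'(t₂) = 0`; then all jets of `z` and `r` at `t₂` agree and `z = r`.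
-/

set_option autoImplicit false

open Real Filter Topology Set

namespace Pool.Agent.Results.MP_55ecfc_an.OneTroughedWavesEven

/-- `z` is a nontrivial or trivial travelling-wave profile: `z ∈ C⁴(ℝ)`,
`z'''' + c² z'' + (z+1)⁺ - ξ (z+1)⁻ - 1 = 0` with `u^± = max {± u, 0}`, and `z(t), z'(t) → 0` as
`|t| → ∞`. -/
def IsWave (c ξ : ℝ) (z : ℝ → ℝ) : Prop :=
  ContDiff ℝ 4 z ∧
  (∀ t, iteratedDeriv 4 z t + c ^ 2 * iteratedDeriv 2 z t + max (z t + 1) 0
    - ξ * max (-(z t + 1)) 0 - 1 = 0) ∧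
  Tendsto z atTop (𝓝 0) ∧ Tendsto z atBot (𝓝 0) ∧
  Tendsto (deriv z) atTop (𝓝 0) ∧ Tendsto (deriv z) atBot (𝓝 0)

/-- One-troughed: there are exactly two points `t` with `z t = -1`. -/
def OneTroughed (z : ℝ → ℝ) : Prop := ({t : ℝ | z t = -1}).ncard = 2

/-- For all real `c` with `c² < 2` and all real `ξ < 1` every one-troughed wave has a translate which
is an even function. -/
theorem result (c ξ : ℝ) (hc : c ^ 2 < 2) (hξ : ξ < 1) (z : ℝ → ℝ) (hz : IsWave c ξ z)
    (h : OneTroughed z) : ∃ t₀ : ℝ, ∀ t, z (t₀ - t) = z (t₀ + t) := by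
  obtain ⟨hd, heq, l1, l2, l3, l4⟩ := hz
  obtain ⟨a, b, hab, hset⟩ := Set.ncard_eq_two.1 h
  have hder : ∀ n : ℕ, n < 4 → ∀ t,
      HasDerivAt (iteratedDeriv n z) (iteratedDeriv (n + 1) z t) t := by
    intro n hn t
    have := (hd.differentiable_iteratedDeriv n (by exact_mod_cast hn)) t
    rw [iteratedDeriv_succ]
    exact this.hasDerivAt
  have S : Pool.Agent.X244.OT.Sol (c ^ 2) ξ z (deriv z) (iteratedDeriv 2 z)
      (iteratedDeriv 3 z) := by
    refine ⟨fun t => ?_, fun t => ?_, fun t => hder 2 (by norm_num) t, fun t => ?_⟩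
    · have := hder 0 (by norm_num) t
      rw [iteratedDeriv_zero, zero_add, iteratedDeriv_one] at this
      exact this
    · have := hder 1 (by norm_num) t
      rw [iteratedDeriv_one] at this
      exact this
    · refine (hder 3 (by norm_num) t).congr_deriv ?_
      have := heq t
      unfold Pool.Agent.X244.OT.F
      linarith
  have hs : √(2 - c ^ 2) ^ 2 = 2 - c ^ 2 := Real.sq_sqrt (by linarith)
  have hs0 : 0 < √(2 - c ^ 2) := Real.sqrt_pos.2 (by linarith)
  have hs2 : √(2 - c ^ 2) < 2 := by nlinarith [sq_nonneg c]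
  have main : ∀ t₁ t₂ : ℝ, t₁ < t₂ → (∀ t, z t = -1 ↔ t = t₁ ∨ t = t₂) →
      ∃ t₀ : ℝ, ∀ t, z (t₀ - t) = z (t₀ + t) := by
    intro t₁ t₂ h12 hs'
    refine ⟨(t₁ + t₂) / 2, fun t => ?_⟩
    have := Pool.Agent.X244.OT.even_of hs0 hs2 (k := c ^ 2) (by rw [hs]; ring) hξ S l1 l3 l2 l4
      t₁ t₂ h12 hs' ((t₁ + t₂) / 2 + t)
    rw [← this]
    congr 1
    ring
  have hset' : ∀ t, z t = -1 ↔ t = a ∨ t = b := by
    intro t
    have : t ∈ {t : ℝ | z t = -1} ↔ t ∈ ({a, b} : Set ℝ) := by rw [hset]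
    simpa using this
  rcases lt_or_gt_of_ne hab with h' | h'
  · exact main a b h' hset'
  · exact main b a h' (fun t => by rw [hset', or_comm])

end Pool.Agent.Results.MP_55ecfc_an.OneTroughedWavesEven
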